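import Pool.Agent.K7.H63.HO.Test
import Pool.Agent.TH818.AP.Api

/-!
# Equality of periods: values of the Beta and Hurwitz zeta functions at fractions in short intervals

The periods of this file are `π`, the values `B(x, ρ) = Γ(x) Γ(ρ) / Γ(x + ρ) = ∫_0^1 u ^ (x - 1) (1 - u) ^ (ρ - 1) du` of the
Beta function at rational numbers `x`, for finitely many fixed rational numbers `ρ` which are not integers and not
congruent modulo `ℤ`, and the values `ζ(k + 1, x + a) = ∑_{n ≥ 0} 1 / (n + x + a) ^ (k + 1)` and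
`ψ(x + a) - ψ(1) = ∫_0^1 (1 - u ^ (x + a - 1)) / (1 - u) du`, for finitely many fixed rational numbers `a ≥ 0` which are
not congruent modulo `ℤ`. An expression is a polynomial with integer coefficients in `π` and in these periods for
`r` rational numbers `x_1, …, x_r` (and possibly in further constants `ξ_i`). The test of the equality of two expressions
answers `equal` if they are the same polynomial, it answers `not equal` if they are not and their approximate values differ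
by more than the error, and otherwise it gives no answer. Its answers are right, and with precision `T ^ (-B)` it decides
the equality of all pairs of expressions of degree at most `d` with coefficients at most `T ^ A` at all tuples of
`Y_1 × … × Y_r` but at most `C ∑_j ∏_{i ≠ j} |Y_i|`, for all sets `Y_j` of rational numbers with denominators at most `T` in
intervals of length `T ^ (-δ)`. For `r = 1` these are at most `C` of the elements of `Y_1`.
-/

set_option autoImplicit false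
set_option linter.unusedSectionVars false

namespace Pool.Agent.Results.MP_bbe012_lc.BetaAndHurwitzValues

/-- `Z 0 t = ψ(t) - ψ(1)`, `Z k t = ζ(k + 1, t) = ∑_{n ≥ 0} 1 / (n + t) ^ (k + 1)` for `k ≥ 1`. -/
noncomputable def Z (k : ℕ) (t : ℂ) : ℂ :=
  if k = 0 then Complex.digamma t - Complex.digamma 1 else ∑' n : ℕ, 1 / ((n : ℂ) + t) ^ (k + 1)

/-- The Beta function `B(t, ρ) = Γ(t) Γ(ρ) / Γ(t + ρ)`. -/
noncomputable def Beta (ρ t : ℂ) : ℂ := Complex.Gamma t * Complex.Gamma ρ / Complex.Gamma (t + ρ)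

/-- The names of the `1 + g + r (p S + q)` numbers; `inl none` is the name of `π`, `inl (some i)` that of `ξ_i`. -/
abbrev Name (g r p S q : ℕ) : Type := Option (Fin g) ⊕ (Fin r × ((Fin p × Fin S) ⊕ Fin q))

/-- The constants `π, ξ_1, …, ξ_g`. -/
noncomputable def constants {g : ℕ} (ξ : Fin g → ℂ) (i : Option (Fin g)) : ℂ := i.elim (Real.pi : ℂ) ξ

/-- The numbers `Z k (x_j + a_l)`, `k < S`, and `B(x_j, ρ_l)`. -/
noncomputable def num {r p S q : ℕ} (a : Fin p → ℚ) (ρ : Fin q → ℚ) (x : Fin r → ℚ)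
    (z : Fin r × ((Fin p × Fin S) ⊕ Fin q)) : ℂ :=
  match z with
  | (j, Sum.inl (l, k)) => Z k ((x j : ℂ) + a l)
  | (j, Sum.inr l) => Beta (ρ l) (x j)

/-- The value at `x` of an expression, a polynomial in the names with integer coefficients. -/
noncomputable def value {g r p S q : ℕ} (a : Fin p → ℚ) (ρ : Fin q → ℚ) (ξ : Fin g → ℂ) (x : Fin r → ℚ)
    (P : MvPolynomial (Name g r p S q) ℤ) : ℂ :=
  MvPolynomial.aeval (Sum.elim (constants ξ) (num a ρ x)) P

open MvPolynomial in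
/-- Formal equality of two expressions: they become the same polynomial in the names of the numbers `num`, with complex
coefficients, if the constants are substituted for their names. -/
def FormallyEqual {g r p S q : ℕ} (ξ : Fin g → ℂ) (P₁ P₂ : MvPolynomial (Name g r p S q) ℤ) : Prop :=
  MvPolynomial.aeval (Sum.elim (fun i => C (constants ξ i)) (fun z => X z) :
      Name g r p S q → MvPolynomial (Fin r × ((Fin p × Fin S) ⊕ Fin q)) ℂ) P₁ =
    MvPolynomial.aeval (Sum.elim (fun i => C (constants ξ i)) (fun z => X z) :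
      Name g r p S q → MvPolynomial (Fin r × ((Fin p × Fin S) ⊕ Fin q)) ℂ) P₂

open Classical in
/-- The test. Input: two expressions and approximations `v₁`, `v₂` of their values with error at most `ε`. It answers
`true` (equal) if the expressions are formally equal, `false` (not equal) if they are not and `‖v₁ - v₂‖ > 2 ε`, and
`none` (no answer) otherwise. -/
noncomputable def test {g r p S q : ℕ} (ξ : Fin g → ℂ) (P₁ P₂ : MvPolynomial (Name g r p S q) ℤ) (v₁ v₂ : ℂ)
    (ε : ℝ) : Option Bool :=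
  if FormallyEqual ξ P₁ P₂ then some true else if 2 * ε < ‖v₁ - v₂‖ then some false else none

/-- The tuples `x` of `Y_1 × … × Y_r` at which the test with precision `ε` gives no answer for some pair of expressions of
degree at most `d` in each variable, with coefficients at most `M` in absolute value, and some admissible
approximations. -/
def NoAnswer {g r p q : ℕ} (S d : ℕ) (a : Fin p → ℚ) (ρ : Fin q → ℚ) (ξ : Fin g → ℂ) (Y : Fin r → Finset ℚ) (M ε : ℝ) :
    Set (Fin r → ℚ) :=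
  {x | (∀ j, x j ∈ Y j) ∧ ∃ P₁ P₂ : MvPolynomial (Name g r p S q) ℤ,
    (∀ z, P₁.degreeOf z ≤ d ∧ P₂.degreeOf z ≤ d) ∧
    (∀ s, |((P₁.coeff s : ℤ) : ℝ)| ≤ M ∧ |((P₂.coeff s : ℤ) : ℝ)| ≤ M) ∧
    ∃ v₁ v₂ : ℂ, ‖v₁ - value a ρ ξ x P₁‖ ≤ ε ∧ ‖v₂ - value a ρ ξ x P₂‖ ≤ ε ∧ test ξ P₁ P₂ v₁ v₂ ε = none}

/-- All nonzero values at the constants of integer polynomials of degree at most `d` in each variable, with coefficients
at most `H` in absolute value, have absolute value at least `μ`. -/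
def LowerBound {g : ℕ} (ξ : Fin g → ℂ) (d : ℕ) (H μ : ℝ) : Prop :=
  ∀ Q : MvPolynomial (Option (Fin g)) ℤ, (∀ i, Q.degreeOf i ≤ d) → (∀ s, |((Q.coeff s : ℤ) : ℝ)| ≤ H) →
    MvPolynomial.aeval (constants ξ) Q ≠ 0 → μ ≤ ‖MvPolynomial.aeval (constants ξ) Q‖

/-- the values of integer polynomials at `π` -/
theorem value_pi (D : ℕ) (ξ : Fin 0 → ℂ) (Q : MvPolynomial (Option (Fin 0)) ℤ) (hQd : ∀ i, Q.degreeOf i ≤ D) :
    MvPolynomial.aeval (constants ξ) Q = ((∑ e : Fin (D + 1),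
      ((Q.coeff (TH659.AQ.fs fun _ => e) : ℤ) : ℝ) * Real.pi ^ (e : ℕ) : ℝ) : ℂ) := by
  rw [TH659.AQ.aeval_box _ Q hQd, ← Equiv.sum_comp (Equiv.funUnique (Option (Fin 0)) (Fin (D + 1))).symm]
  push_cast
  refine Finset.sum_congr rfl fun e _ => ?_
  have h5 : (Equiv.funUnique (Option (Fin 0)) (Fin (D + 1))).symm e = fun _ => e := rfl
  have h7 : ∏ i : Option (Fin 0), constants ξ i ^ (e : ℕ) = (Real.pi : ℂ) ^ (e : ℕ) := by
    rw [Fintype.prod_option]
    simp [constants]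
  rw [h5, h7]

/-- `π` is transcendental -/
theorem pi_ne (D : ℕ) (c : Fin (D + 1) → ℤ) (h : ∑ e, (c e : ℝ) * Real.pi ^ (e : ℕ) = 0) : c = 0 := by
  by_contra hc
  obtain ⟨B1, T1, hm⟩ := TH818.AP.goodConst_pi D 1
  set T : ℝ := max T1 (max 1 (∑ e, |(c e : ℝ)|)) with hT
  have hT1 : 1 ≤ T := (le_max_left _ _).trans (le_max_right _ _)
  have h1 := hm T (le_max_left _ _) c hc (fun e => by
    rw [Real.rpow_one]
    exact (Finset.single_le_sum (f := fun e => |(c e : ℝ)|) (fun _ _ => abs_nonneg _) (Finset.mem_univ e)).trans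
      ((le_max_right _ _).trans (le_max_right _ _)))
  rw [h, abs_zero] at h1
  have h2 : 0 < T ^ (-B1) := by positivity
  linarith

/-- Let `a_l ≥ 0` be rational numbers which are not congruent modulo `ℤ`, let `ρ_l > 0` be rational numbers which are not
integers and not congruent modulo `ℤ`.
(1) The test is never wrong.
(2) If `π` is the only constant, two expressions are formally equal if and only if they are the same polynomial.
(3) If `π` is the only constant, there are `B`, `C` and `T₀` such that for all `T ≥ T₀` and all sets `Y_1, …, Y_r` of rational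
numbers of `[α, β]` with denominators at most `T`, each of them of diameter at most `T ^ (-δ)`, there are at most
`C ∑_j ∏_{i ≠ j} |Y_i|` tuples at which the test with precision `T ^ (-B)` gives no answer for some pair of expressions.
(4) The same holds for all complex constants `ξ_1, …, ξ_g` and every lower bound `μ` for the nonzero values at
`(π, ξ_1, …, ξ_g)` of integer polynomials of degree at most `d` in each variable and coefficients at most
`T ^ (A + 1)`, with precision `μ T ^ (-B)`. -/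
theorem result (r p S q d : ℕ) (a : Fin p → ℚ) (ha : ∀ l, 0 ≤ a l) (has : ∀ l l' : Fin p, ∀ n : ℤ, a l - a l' = n → l = l')
    (ρ : Fin q → ℚ) (hρ : ∀ l, 0 < ρ l) (hρn : ∀ l, ∀ n : ℤ, ρ l ≠ n)
    (hρs : ∀ l l' : Fin q, ∀ n : ℤ, ρ l - ρ l' = n → l = l') (α β A δ : ℝ) (hα : 0 < α) (hA : 0 ≤ A) (hδ : 0 < δ) :
    (∀ (g : ℕ) (ξ : Fin g → ℂ) (x : Fin r → ℚ) (P₁ P₂ : MvPolynomial (Name g r p S q) ℤ) (v₁ v₂ : ℂ) (ε : ℝ),
      ‖v₁ - value a ρ ξ x P₁‖ ≤ ε → ‖v₂ - value a ρ ξ x P₂‖ ≤ ε →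
      (test ξ P₁ P₂ v₁ v₂ ε = some true → value a ρ ξ x P₁ = value a ρ ξ x P₂) ∧
      (test ξ P₁ P₂ v₁ v₂ ε = some false → value a ρ ξ x P₁ ≠ value a ρ ξ x P₂)) ∧
    (∀ (ξ : Fin 0 → ℂ) (P₁ P₂ : MvPolynomial (Name 0 r p S q) ℤ), FormallyEqual ξ P₁ P₂ ↔ P₁ = P₂) ∧
    (∃ B C T₀ : ℝ, ∀ (ξ : Fin 0 → ℂ) (T : ℝ), T₀ ≤ T → ∀ Y : Fin r → Finset ℚ,
      (∀ j, ∀ x ∈ Y j, α ≤ (x : ℝ) ∧ (x : ℝ) ≤ β ∧ (x.den : ℝ) ≤ T) →
      (∀ j, ∀ x ∈ Y j, ∀ y ∈ Y j, |(x : ℝ) - y| ≤ T ^ (-δ)) →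
      ((NoAnswer S d a ρ ξ Y (T ^ A) (T ^ (-B))).ncard : ℝ) ≤ C * ∑ j, ∏ i ∈ Finset.univ.erase j, ((Y i).card : ℝ)) ∧
    ∀ g : ℕ, ∃ B C T₀ : ℝ, ∀ (ξ : Fin g → ℂ) (T : ℝ), T₀ ≤ T → ∀ μ : ℝ, 0 < μ → LowerBound ξ d (T ^ (A + 1)) μ →
      ∀ Y : Fin r → Finset ℚ, (∀ j, ∀ x ∈ Y j, α ≤ (x : ℝ) ∧ (x : ℝ) ≤ β ∧ (x.den : ℝ) ≤ T) →
      (∀ j, ∀ x ∈ Y j, ∀ y ∈ Y j, |(x : ℝ) - y| ≤ T ^ (-δ)) →
      ((NoAnswer S d a ρ ξ Y (T ^ A) (μ * T ^ (-B))).ncard : ℝ) ≤
        C * ∑ j, ∏ i ∈ Finset.univ.erase j, ((Y i).card : ℝ) := by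
  classical
  have key : ∀ g : ℕ, ∃ B C T₀ : ℝ, 0 ≤ B ∧ 0 ≤ C ∧ 2 ≤ T₀ ∧ ∀ (ξ : Fin g → ℂ) (T : ℝ), T₀ ≤ T → ∀ μ : ℝ, 0 < μ →
      LowerBound ξ d (T ^ (A + 1)) μ →
      ∀ Y : Fin r → Finset ℚ, (∀ j, ∀ x ∈ Y j, α ≤ (x : ℝ) ∧ (x : ℝ) ≤ β ∧ (x.den : ℝ) ≤ T) →
      (∀ j, ∀ x ∈ Y j, ∀ y ∈ Y j, |(x : ℝ) - y| ≤ T ^ (-δ)) →
      ((NoAnswer S d a ρ ξ Y (T ^ A) (μ * T ^ (-B))).ncard : ℝ) ≤
        C * ∑ j, ∏ i ∈ Finset.univ.erase j, ((Y i).card : ℝ) := by
    intro g
    have hind := Pool.Agent.K7.H63.HO.fam2 p S q (fun l => (a l : ℂ)) (fun l => by simpa using ha l)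
      (fun k l n h => has k l n (by exact_mod_cast h)) (fun l => (ρ l : ℂ)) (fun l => by simpa using hρ l)
      (fun l n h => hρn l n (by exact_mod_cast h)) (fun k l n h => hρs k l n (by exact_mod_cast h))
    have han := Pool.Agent.K7.H63.HO.fam2_an p S q (fun l => (a l : ℂ)) (fun l => by simpa using ha l)
      (fun l => (ρ l : ℂ)) (fun l => by simpa using hρ l)
    obtain ⟨B, C, T₀, hB, hC, hT₀, H⟩ := Pool.Agent.K7.H63.HO.gapE (G := Option (Fin g)) r d
      (fun (y : (Fin p × Fin S) ⊕ Fin q) => Sum.elim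
        (fun (y : Fin p × Fin S) (t : ℂ) => Pool.Agent.K7.H63.HO.Hp y.2 (t + (a y.1 : ℂ)))
        (fun (k : Fin q) (t : ℂ) => Pool.Agent.K7.H63.HO.Be (ρ k : ℂ) t) y) han hind α β hα A δ hA hδ
    refine ⟨B, C, T₀, hB, hC, hT₀, fun ξ T hT μ hμ hlow Y hY hYd => ?_⟩
    set E : Finset (Fin r → ℚ) := (Fintype.piFinset Y).filter fun x => x ∈ NoAnswer S d a ρ ξ Y (T ^ A) (μ * T ^ (-B))
      with hE
    have hES : NoAnswer S d a ρ ξ Y (T ^ A) (μ * T ^ (-B)) = (E : Set (Fin r → ℚ)) := by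
      ext x
      rw [hE, Finset.coe_filter, Set.mem_ofPred_eq, Fintype.mem_piFinset]
      exact ⟨fun h => ⟨h.1, h⟩, fun h => h.2⟩
    rw [hES, Set.ncard_coe_finset]
    refine H (constants ξ) T hT Y hY hYd μ hμ hlow E (fun x hx => ?_)
    rw [hE, Finset.mem_filter] at hx
    obtain ⟨hxY, P₁, P₂, hPd, hPc, v₁, v₂, hv₁, hv₂, hnone⟩ := hx.2
    have hne : ¬ FormallyEqual ξ P₁ P₂ ∧ ‖v₁ - v₂‖ ≤ 2 * (μ * T ^ (-B)) := by
      unfold test at hnone
      split_ifs at hnone with h1 h2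
      exact ⟨h1, not_lt.1 h2⟩
    have hd : ∀ z, (P₁ - P₂).degreeOf z ≤ d := fun z =>
      (MvPolynomial.degreeOf_sub_le z P₁ P₂).trans (max_le (hPd z).1 (hPd z).2)
    refine ⟨hxY, P₁ - P₂, hd, fun s => ?_, ?_, ?_⟩
    · rw [MvPolynomial.coeff_sub]
      push_cast
      refine (abs_sub _ _).trans ?_
      linarith [(hPc s).1, (hPc s).2]
    · by_contra hcon
      push Not at hcon
      apply hne.1
      unfold FormallyEqual
      rw [← sub_eq_zero, ← map_sub, Pool.Agent.K7.H63.HO.subst_eq (d := d) _ _ hd, Pool.Agent.K7.H63.HO.cs]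
      refine Finset.sum_eq_zero fun e _ => ?_
      rw [hcon e, map_zero]
    · have e0 : MvPolynomial.aeval (Sum.elim (constants ξ) fun u : Fin r × ((Fin p × Fin S) ⊕ Fin q) =>
          (Sum.elim (fun (y : Fin p × Fin S) (t : ℂ) => Pool.Agent.K7.H63.HO.Hp y.2 (t + (a y.1 : ℂ)))
            (fun (k : Fin q) (t : ℂ) => Pool.Agent.K7.H63.HO.Be (ρ k : ℂ) t) u.2) ((x u.1 : ℚ) : ℂ)) (P₁ - P₂) =
          value a ρ ξ x P₁ - value a ρ ξ x P₂ := by
        rw [map_sub, value, value]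
        have e1 : (Sum.elim (constants ξ) fun u : Fin r × ((Fin p × Fin S) ⊕ Fin q) =>
            (Sum.elim (fun (y : Fin p × Fin S) (t : ℂ) => Pool.Agent.K7.H63.HO.Hp y.2 (t + (a y.1 : ℂ)))
              (fun (k : Fin q) (t : ℂ) => Pool.Agent.K7.H63.HO.Be (ρ k : ℂ) t) u.2) ((x u.1 : ℚ) : ℂ)) =
            Sum.elim (constants ξ) (num a ρ x) := by
          funext z
          rcases z with i | ⟨j, ⟨l, k⟩ | l⟩
          · rfl
          · rfl
          · rfl
        rw [e1]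
      rw [e0]
      have e3 : value a ρ ξ x P₁ - value a ρ ξ x P₂ = -(v₁ - value a ρ ξ x P₁) + (v₂ - value a ρ ξ x P₂) + (v₁ - v₂) := by
        ring
      rw [e3]
      refine (norm_add₃_le).trans ?_
      rw [norm_neg]
      linarith [hne.2]
  refine ⟨?_, ?_, ?_, ?_⟩
  · intro g ξ x P₁ P₂ v₁ v₂ ε hv₁ hv₂
    refine ⟨fun ht => ?_, fun ht heq => ?_⟩
    · have hfe : FormallyEqual ξ P₁ P₂ := by
        by_contra hne
        unfold test at ht
        rw [if_neg hne] at ht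
        by_cases hc : 2 * ε < ‖v₁ - v₂‖
        · rw [if_pos hc] at ht
          exact absurd (Option.some.inj ht) (by decide)
        · rw [if_neg hc] at ht
          exact absurd ht (by simp)
      have h1 := congrArg (MvPolynomial.aeval (num a ρ x)) hfe
      rw [Pool.Agent.K7.H63.HO.aeval_subst, Pool.Agent.K7.H63.HO.aeval_subst] at h1
      exact h1
    · have hlt : 2 * ε < ‖v₁ - v₂‖ := by
        by_contra hne
        unfold test at ht
        by_cases hc : FormallyEqual ξ P₁ P₂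
        · rw [if_pos hc] at ht
          exact absurd (Option.some.inj ht) (by decide)
        · rw [if_neg hc, if_neg hne] at ht
          exact absurd ht (by simp)
      have h1 : ‖v₁ - v₂‖ ≤ ‖v₁ - value a ρ ξ x P₁‖ + ‖v₂ - value a ρ ξ x P₂‖ := by
        rw [heq]
        have : v₁ - v₂ = (v₁ - value a ρ ξ x P₂) - (v₂ - value a ρ ξ x P₂) := by ring
        rw [this]
        exact norm_sub_le _ _
      linarith
  · intro ξ P₁ P₂
    refine ⟨fun h => ?_, fun h => by rw [h]; rfl⟩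
    rw [← sub_eq_zero]
    set P := P₁ - P₂ with hP
    set D := P.totalDegree with hD
    have hd : ∀ z, P.degreeOf z ≤ D := fun z => MvPolynomial.degreeOf_le_totalDegree P z
    unfold FormallyEqual at h
    rw [← sub_eq_zero, ← map_sub, ← hP, Pool.Agent.K7.H63.HO.subst_eq (d := D) _ _ hd] at h
    refine Pool.Agent.K7.H63.HO.eq_zero_of_Qe (d := D) P hd fun e v => ?_
    have h1 : MvPolynomial.aeval (constants ξ) (Pool.Agent.Y549.PE.Qe P e) = 0 := by
      rw [← Pool.Agent.K7.H63.HO.cs_coeff, h, MvPolynomial.coeff_zero]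
    rw [Pool.Agent.Y549.PE.aeval_Qe, ← Equiv.sum_comp (Equiv.funUnique (Option (Fin 0)) (Fin (D + 1))).symm] at h1
    have h2 : ((∑ f : Fin (D + 1), ((P.coeff (Pool.Agent.Y549.PE.ex (fun _ => f) e) : ℤ) : ℝ) * Real.pi ^ (f : ℕ) : ℝ) : ℂ)
        = 0 := by
      rw [← h1]
      push_cast
      refine Finset.sum_congr rfl fun f _ => ?_
      have h5 : (Equiv.funUnique (Option (Fin 0)) (Fin (D + 1))).symm f = fun _ => f := rfl
      have h7 : ∏ i : Option (Fin 0), constants ξ i ^ (f : ℕ) = (Real.pi : ℂ) ^ (f : ℕ) := by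
        rw [Fintype.prod_option]
        simp [constants]
      rw [h5, h7, mul_comm]
    have h3 := pi_ne D (fun f => P.coeff (Pool.Agent.Y549.PE.ex (fun _ => f) e)) (by exact_mod_cast h2)
    have h4 : v = fun _ => v none := by
      funext i
      cases i with
      | none => rfl
      | some i => exact i.elim0
    rw [h4]
    exact congrFun h3 (v none)
  · obtain ⟨B, C, T₀, hB, hC, hT₀, H⟩ := key 0
    obtain ⟨B1, T1, hm⟩ := TH818.AP.goodConst_pi d (A + 1)
    refine ⟨B1 + B, C, max T₀ T1, fun ξ T hT Y hY hYd => ?_⟩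
    have hTT₀ : T₀ ≤ T := (le_max_left _ _).trans hT
    have hTT1 : T1 ≤ T := (le_max_right _ _).trans hT
    have hTp : 0 < T := by linarith
    have hlow : LowerBound ξ d (T ^ (A + 1)) (T ^ (-B1)) := by
      intro Q hQd hQc hQ0
      have h4 := value_pi d ξ Q hQd
      rw [h4, Complex.norm_real, Real.norm_eq_abs]
      refine hm T hTT1 (fun e => Q.coeff (TH659.AQ.fs fun _ => e)) ?_ (fun e => hQc _)
      intro h0
      apply hQ0
      rw [h4]
      have h6 : ∀ e : Fin (d + 1), Q.coeff (TH659.AQ.fs fun _ => e) = 0 := fun e => congrFun h0 e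
      simp [h6]
    have h5 := H ξ T hTT₀ (T ^ (-B1)) (by positivity) hlow Y hY hYd
    have h6 : T ^ (-B1) * T ^ (-B) = T ^ (-(B1 + B)) := by
      rw [← Real.rpow_add hTp]
      congr 1
      ring
    rw [h6] at h5
    exact h5
  · intro g
    obtain ⟨B, C, T₀, -, -, -, H⟩ := key g
    exact ⟨B, C, T₀, H⟩

end Pool.Agent.Results.MP_bbe012_lc.BetaAndHurwitzValues
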