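import Mathlib
import Pool.Agent.K7.H62.PA.DIns
import Pool.Agent.K7.H62.PA.LinMap

/-!
# Equality of expressions which are linear in arbitrary logarithms

Let `ℚ̄ ⊂ ℂ` be the field of algebraic numbers, let `G ⊂ ℂ` be a `ℚ̄`-space of dimension at most `g` (of
arbitrary numbers, for instance periods), and let `LogForms G` be the space of all linear combinations,
with algebraic coefficients, of `1`, of logarithms of algebraic numbers and of elements of `G`; if `G` is
spanned by periods these are periods.

Two expressions in numbers `y_1, …, y_n`, `l_1, …, l_r` are LINEARLY EQUAL if their equality follows from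
the linear relations with algebraic coefficients between `1`, the `y_i` and the `l_j`: for every
`ℚ̄`-linear map `φ : ℂ → ℂ` with `φ(1) = 1` they have equal values at the point `φ(y_1), …, φ(l_r)`.
(In other words: if the elements `≠ 1` of a basis which contains `1` of the space spanned by `1`, the `y_i`
and the `l_j` are replaced by independent variables, the two expressions become the same polynomial.)
This can be decided if the linear relations are known, and for logarithms they are known by Baker's
theorem: they come from the multiplicative relations.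

For `j ≤ n` and `s ≤ k` let `λ_{j,s,1}, …, λ_{j,s,N}` be a list of `N` arbitrary logarithms of algebraic
numbers, such that for every `j` the differences of different members of different lists are linearly
independent: if `f, h` are two choice functions, then the differences `λ_{j,s,h(s)} - λ_{j,s,f(s)}` for
all `s` with `h(s) ≠ f(s)` are linearly independent over `ℚ`.  For instance the `λ_{j,s,i}` can be the
logarithms of different primes, for fixed `j`, or `λ_{j,s,i} = a_i λ_s` with different rational numbers
`a_1, …, a_N` and with `ℚ`-linearly independent logarithms `λ_1, …, λ_k`.  Let `ζ_j` be arbitrary elements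
of `LogForms G`.

**Theorem.** For all but `C N^(n k - δ k)` of the `N^(n k)` choices of one member of each of the `n k`
lists, the numbers `y_j = ζ_j + ∑_s λ_{j,s,f_j(s)}` have the following property.  Let `l_1, …, l_r` be
ARBITRARY elements of `LogForms G` (any number of them, chosen after `y`), and let `P`, `P'` be polynomials
with algebraic coefficients of degree at most `D` in each of the first `n` variables and of total degree
at most one in the last `r` variables.  Then `P(y, l) = P'(y, l)` if and only if the two expressions are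
linearly equal.  Here `k ≥ k₀`, and `k₀`, `C` and `δ > 0` depend only on `n`, `D` and `g`.

The proof: cubes with sufficiently many linearly independent directions contain generic points
(`Pool.Agent.R350.PD_all`, from the strong six exponentials theorem of D. Roy); sets of choice functions
without nondegenerate boxes are exponentially small (`Pool.Agent.K7.H62.PA.box_count`).
-/

set_option autoImplicit false

namespace Pool.Agent.Results.MP_bbe012_lc.LinearInArbitraryLogarithms

open Module MvPolynomial

/-- the linear combinations, with algebraic coefficients, of `1`, of logarithms of algebraic numbers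
and of elements of `G` -/
noncomputable def LogForms (G : Submodule (algebraicClosure ℚ ℂ) ℂ) :
    Submodule (algebraicClosure ℚ ℂ) ℂ :=
  Submodule.span (algebraicClosure ℚ ℂ) ({1} ∪ {z : ℂ | IsAlgebraic ℚ (Complex.exp z)}) ⊔ G

/-- The equality of the two expressions `P`, `P'` in the numbers `x i` follows from the linear
relations with algebraic coefficients between `1` and the `x i`. -/
def LinearlyEqual {ι : Type} (x : ι → ℂ) (P P' : MvPolynomial ι (algebraicClosure ℚ ℂ)) : Prop :=
  ∀ φ : ℂ →ₗ[algebraicClosure ℚ ℂ] ℂ, φ 1 = 1 →
    aeval (fun i => φ (x i)) P = aeval (fun i => φ (x i)) P'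

/-- `1, y_1, …, y_n` are linearly independent over the algebraic numbers, and two expressions in the
`y_i` and in arbitrary elements `l_j` of `V`, of degree at most `D` in each `y_i` and of total degree at
most one in the `l_j`, are equal if and only if they are linearly equal. -/
def EqualityIsLinear (V : Submodule (algebraicClosure ℚ ℂ) ℂ) (D : ℕ) {n : ℕ} (y : Fin n → ℂ) :
    Prop :=
  LinearIndependent (algebraicClosure ℚ ℂ) (Fin.cons 1 y : Fin (n + 1) → ℂ) ∧
  ∀ (r : ℕ) (l : Fin r → ℂ), (∀ j, l j ∈ V) →
    ∀ P P' : MvPolynomial (Fin n ⊕ Fin r) (algebraicClosure ℚ ℂ),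
      (∀ i, P.degreeOf (Sum.inl i) ≤ D ∧ P'.degreeOf (Sum.inl i) ≤ D) →
      (∀ β ∈ P.support ∪ P'.support, ∑ j, β (Sum.inr j) ≤ 1) →
      (aeval (Sum.elim y l) P = aeval (Sum.elim y l) P' ↔ LinearlyEqual (Sum.elim y l) P P')

open Classical in
/-- **Main result.** -/
theorem result (n D g : ℕ) : ∃ (k₀ C : ℕ) (δ : ℝ), 0 < δ ∧
    ∀ G : Submodule (algebraicClosure ℚ ℂ) ℂ, Module.Finite (algebraicClosure ℚ ℂ) G →
    finrank (algebraicClosure ℚ ℂ) G ≤ g →
    ∀ k ≥ k₀, ∀ (N : ℕ) (lam : Fin n → Fin k → Fin N → ℂ),
      (∀ j s i, IsAlgebraic ℚ (Complex.exp (lam j s i))) →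
      (∀ (j : Fin n) (f h : Fin k → Fin N), LinearIndependent ℚ
        (fun s : {s // h s ≠ f s} => lam j s.1 (h s.1) - lam j s.1 (f s.1))) →
      ∀ ζ : Fin n → ℂ, (∀ j, ζ j ∈ LogForms G) →
      ((Finset.univ.filter fun f : Fin n → Fin k → Fin N =>
        ¬ EqualityIsLinear (LogForms G) D (fun j => ζ j + ∑ s, lam j s (f j s))).card : ℝ) ≤
        C * (N : ℝ) ^ ((n * k : ℝ) - δ * k) := by
  obtain ⟨k₀, C, δ, hδ, -, h⟩ := Pool.Agent.K7.H62.PA.box_free (D + 1) n 1 (0 + g)
  refine ⟨k₀, C, δ, hδ, fun G hGf hGg k hk N lam hlam hli ζ hζ => ?_⟩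
  have hyp : Pool.Agent.R350.HypV (0 + g) (LogForms G) :=
    Pool.Agent.R350.setup_complex.hyp.sup G hGg
  have hone : (1 : ℂ) ∈ LogForms G :=
    Submodule.mem_sup_left Pool.Agent.R350.setup_complex.one
  have hlog : ∀ {z : ℂ}, IsAlgebraic ℚ (Complex.exp z) → z ∈ LogForms G := fun hz =>
    Submodule.mem_sup_left (Pool.Agent.H301R2.SSE.Lt_log hz)
  refine h k hk (algebraicClosure ℚ ℂ) ℂ (LogForms G)
    (Submodule.span (algebraicClosure ℚ ℂ) {(1 : ℂ)}) inferInstance hyp hone
    (Submodule.mem_span_singleton_self _)
    (Pool.Agent.R350.finrank_span_one (algebraicClosure ℚ ℂ) ℂ) ζ hζ N lam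
    (fun j s i => hlog (hlam j s i))
    (fun j => Pool.Agent.K7.H62.PA.DI_complex (lam j) (hlam j) (hli j)) _ ?_
  intro f hf hfree
  have hyL : ∀ j, ζ j + ∑ s, lam j s (f j s) ∈ LogForms G := fun j =>
    Submodule.add_mem _ (hζ j) (Submodule.sum_mem _ fun s _ => hlog (hlam j s (f j s)))
  refine (Finset.mem_filter.1 hf).2 ⟨?_, fun r l hl P P' hD h1 => ⟨fun hE φ hφ => ?_, fun hE => ?_⟩⟩
  · have h1 : (1 : ℂ) ∈ Submodule.span (algebraicClosure ℚ ℂ) {(1 : ℂ)} :=
      Submodule.mem_span_singleton_self _
    rw [Fintype.linearIndependent_iff]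
    intro c hc
    rw [Fin.sum_univ_succ, Fin.cons_zero] at hc
    have h2 := Pool.Agent.R350.FreeT.indep_mod hfree h1 (fun i => c i.succ) (by
      have e1 : ∑ i : Fin n, c i.succ • (ζ i + ∑ s, lam i s (f i s)) =
          (-c 0) • (1 : ℂ) := by
        rw [neg_smul, eq_neg_iff_add_eq_zero, add_comm]
        exact hc
      have e2 := Submodule.smul_mem (Submodule.span (algebraicClosure ℚ ℂ) {(1 : ℂ)}) (-c 0) h1
      rw [← e1] at e2
      exact e2)
    have h3 : c 0 = 0 := by
      rw [Finset.sum_eq_zero (fun i _ => by rw [h2 i, zero_smul]), add_zero] at hc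
      exact (smul_eq_zero.1 hc).resolve_right one_ne_zero
    intro i
    refine Fin.cases h3 (fun i => h2 i) i
  · have hfree' : Pool.Agent.R350.FreeT (D + 1) (LogForms G)
        (Submodule.span (algebraicClosure ℚ ℂ) {(1 : ℂ)}) (fun j => ζ j + ∑ s, lam j s (f j s)) :=
      hfree
    have h2 := Pool.Agent.K7.H62.PA.FreeT.lin_maps hfree' hone hyL l hl (P - P')
      (fun i => (degreeOf_sub_le _ _ _).trans (max_le (hD i).1 (hD i).2)) (by
        intro β hβ
        by_contra hno
        have hP : coeff β P = 0 := by
          by_contra hne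
          exact hno (h1 β (Finset.mem_union_left _ (MvPolynomial.mem_support_iff.2 hne)))
        have hP' : coeff β P' = 0 := by
          by_contra hne
          exact hno (h1 β (Finset.mem_union_right _ (MvPolynomial.mem_support_iff.2 hne)))
        rw [MvPolynomial.mem_support_iff, coeff_sub, hP, hP', sub_self] at hβ
        exact hβ rfl) (by rw [map_sub, hE, sub_self]) φ hφ
    rw [map_sub, sub_eq_zero] at h2
    exact h2
  · exact hE LinearMap.id rfl

end Pool.Agent.Results.MP_bbe012_lc.LinearInArbitraryLogarithms
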