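import Mathlib
import Pool.Agent.K7.H62.PA.RndSlp
import Pool.Agent.K7.H62.PA.DIns
import Pool.Agent.K7.H62.PA.Eq
import Pool.Agent.R351.SlpRate

/-!
# Equality of expressions with few additions, of any degree, in sums of periods

An expression is built from variables, given constants `t_1, …, t_g` (for instance periods) and
algebraic numbers with at most `L` additions and with arbitrarily many multiplications: it is one of
`G 0, …, G (L - 1)`, where each `G l` is a sum of two products of powers of the variables, of the
`t_o`, of the earlier `G 0, …, G (l - 1)` and of an algebraic number.  There is no bound for the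
degrees, for the number of the monomials or for the heights of the algebraic numbers.

The test for the equality of the values of two expressions at a point `y`: if the two expressions are
the same polynomial with coefficients in `ℂ`, then the answer is that the values are equal; if this is
not so and if the approximations of the values show that they are different, then the answer is that
they are different; otherwise there is no answer.  It is never wrong.

Suppose that we have lists of periods which are linearly independent over `ℚ̄` in the following weak
sense.  For `j ≤ n` and `s ≤ k` let `w_{j,s,1}, …, w_{j,s,N}` be a list of `N` complex numbers, such that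
for every `j` the differences of different members of different lists are linearly independent:
if `f, h` are two choice functions, then the differences `w_{j,s,h(s)} - w_{j,s,f(s)}` for all `s` with
`h(s) ≠ f(s)` are linearly independent over the field of algebraic numbers.  For instance the `w_{j,s,i}`
can be, for fixed `j`, logarithms of algebraic numbers which are linearly independent over `ℚ` (by
Baker's theorem), for instance the logarithms of different primes; or multiples by algebraic numbers
`≠ 0` of different powers of `π`; or, for `w_{j,s,i} = a_i w_s`, different multiples of linearly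
independent periods.  The linear relations between periods of curves are known, by the theorem of
Huber and Wüstholz.

**Theorem.** For all but `C N^(n k - δ k)` of the `N^(n k)` choices of one member of each of the `n k`
lists, at the point `y_j = ζ_j + ∑_s w_{j,s,f_j(s)}` the test gives the right answer for all pairs of
expressions with at most `L` additions, from sufficiently good approximations; so two
expressions have the same value if and only if they are formally equal.  Here `k ≥ k₀`, and `k₀`, `C` and
`δ > 0` depend only on `n`, `g` and `L`; the constants `t_o` and the `ζ_j` are arbitrary complex numbers.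

So the linear independence of the periods in the lists implies, for all but exponentially few
of the sums, that there are no nonlinear relations of this kind.

The proof: differential elimination for short computations with respect to a derivation whose
constants are the algebraic numbers (`Pool.Agent.R351.cube_good`), and the fact that sets of choice
functions without nondegenerate boxes are exponentially small (`Pool.Agent.K7.H62.PA.box_count`).
-/

set_option autoImplicit false

namespace Pool.Agent.Results.MP_bbe012_lc.ShortExpressions

open Pool.Agent.R351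

/-- The polynomials `G 0, …, G (L - 1)` are computed with one addition each: `G l` is the sum of two
products of powers of the variables, of the constants `t o`, of the earlier polynomials
`G 0, …, G (l - 1)`, and of an algebraic number. -/
def Computed {g n : ℕ} (t : Fin g → ℂ) (L : ℕ) (G : ℕ → MvPolynomial (Fin n) ℂ) : Prop :=
  ∃ (c : ℕ → Bool → algebraicClosure ℚ ℂ) (u : ℕ → Bool → Fin g → ℕ)
    (a : ℕ → Bool → Fin n → ℕ) (h : ℕ → Bool → ℕ → ℕ), ∀ l < L, G l = ∑ b : Bool,
      MvPolynomial.C ((c l b : ℂ) * ∏ o, t o ^ u l b o) *
        (∏ i, MvPolynomial.X i ^ a l b i) * ∏ l' ∈ Finset.range l, G l' ^ h l b l'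

/-- `P` is an expression with at most `L` additions and arbitrarily many multiplications. -/
def Expression {g n : ℕ} (t : Fin g → ℂ) (L : ℕ) (P : MvPolynomial (Fin n) ℂ) : Prop :=
  ∃ G : ℕ → MvPolynomial (Fin n) ℂ, Computed t L G ∧ ∃ l < L, P = G l

open Classical in
/-- The test. Input: two expressions and approximations `v`, `v'` of their values with error at most
`δ`. It answers `true` (equal) if the expressions are formally equal, `false` (not equal) if they are
not and `‖v - v'‖ > 2 δ`, and `none` (no answer) otherwise. -/
noncomputable def test {n : ℕ} (P P' : MvPolynomial (Fin n) ℂ) (v v' : ℂ) (δ : ℝ) : Option Bool :=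
  if P = P' then some true else if 2 * δ < ‖v - v'‖ then some false else none

/-- At the point `y` the test gives the right answer for every pair of expressions with at most `L`
additions, from all sufficiently good approximations of their values. -/
def Decides {g n : ℕ} (t : Fin g → ℂ) (L : ℕ) (y : Fin n → ℂ) : Prop :=
  ∀ P P' : MvPolynomial (Fin n) ℂ, Expression t L P → Expression t L P' →
    ∃ δ₀ : ℝ, 0 < δ₀ ∧ ∀ (δ : ℝ) (v v' : ℂ), δ ≤ δ₀ → ‖v - MvPolynomial.eval y P‖ ≤ δ →
      ‖v' - MvPolynomial.eval y P'‖ ≤ δ →
        (MvPolynomial.eval y P = MvPolynomial.eval y P' → test P P' v v' δ = some true) ∧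
        (MvPolynomial.eval y P ≠ MvPolynomial.eval y P' → test P P' v v' δ = some false)

theorem Expression.reach {g n : ℕ} {t : Fin g → ℂ} {L : ℕ} {P : MvPolynomial (Fin n) ℂ}
    (h : Expression t L P) :
    Pool.Agent.K7.H62.PA.Reach (algebraicClosure ℚ ℂ) (btm n t) L {P} := by
  obtain ⟨G, ⟨c, u, a, e, h⟩, l, hl, rfl⟩ := h
  refine ⟨G, ⟨c, fun l b j => Sum.elim (u l b) (a l b) j, e, fun l hl => ?_⟩, fun s hs => ?_⟩
  · rw [h l hl]
    refine Finset.sum_congr rfl fun b _ => ?_
    rw [Fintype.prod_sum_type, Algebra.smul_def, IsScalarTower.algebraMap_apply
      (algebraicClosure ℚ ℂ) ℂ (MvPolynomial (Fin n) ℂ)]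
    unfold btm
    simp only [Sum.elim_inl, Sum.elim_inr, map_mul, map_prod, map_pow, MvPolynomial.algebraMap_eq]
    have h1 : algebraMap (algebraicClosure ℚ ℂ) ℂ (c l b) = (c l b : ℂ) := rfl
    rw [h1]
    ring
  · rw [Finset.mem_singleton.1 hs]
    exact ⟨l, hl, rfl⟩

theorem decides_of {g n L : ℕ} {t : Fin g → ℂ} {y : Fin n → ℂ}
    (hy : GoodT (algebraicClosure ℚ ℂ) t (L + L + 1) y) : Decides t L y := by
  intro P P' hP hP'
  by_cases hE : P = P'
  · refine ⟨1, one_pos, fun δ v v' _ _ _ => ⟨fun _ => if_pos hE, fun hne => ?_⟩⟩
    exact absurd (congrArg (MvPolynomial.eval y) hE) hne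
  · have hne : MvPolynomial.eval y P ≠ MvPolynomial.eval y P' := fun h =>
      hE (Pool.Agent.K7.H62.PA.formal_eq hy hP.reach hP'.reach h)
    have hpos : 0 < ‖MvPolynomial.eval y P - MvPolynomial.eval y P'‖ :=
      norm_pos_iff.2 (sub_ne_zero.2 hne)
    refine ⟨‖MvPolynomial.eval y P - MvPolynomial.eval y P'‖ / 5, by linarith,
      fun δ v v' hδ hv hv' => ⟨fun h => absurd h hne, fun _ => ?_⟩⟩
    unfold test
    rw [if_neg hE, if_pos]
    have h1 : MvPolynomial.eval y P - MvPolynomial.eval y P' =
        (v - v') - (v - MvPolynomial.eval y P) + (v' - MvPolynomial.eval y P') := by ring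
    have h2 := norm_add_le ((v - v') - (v - MvPolynomial.eval y P)) (v' - MvPolynomial.eval y P')
    have h3 := norm_sub_le (v - v') (v - MvPolynomial.eval y P)
    rw [← h1] at h2
    linarith

open Classical in
/-- **Main result.** The test is never wrong, and it decides all equalities for all but
exponentially few choices. -/
theorem result :
    (∀ (n : ℕ) (P P' : MvPolynomial (Fin n) ℂ) (y : Fin n → ℂ) (v v' : ℂ) (δ : ℝ),
      ‖v - MvPolynomial.eval y P‖ ≤ δ → ‖v' - MvPolynomial.eval y P'‖ ≤ δ →
        (test P P' v v' δ = some true → MvPolynomial.eval y P = MvPolynomial.eval y P') ∧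
        (test P P' v v' δ = some false → MvPolynomial.eval y P ≠ MvPolynomial.eval y P')) ∧
    ∀ n g L : ℕ, ∃ (k₀ C : ℕ) (δ : ℝ), 0 < δ ∧
      ∀ k ≥ k₀, ∀ (N : ℕ) (w : Fin n → Fin k → Fin N → ℂ),
        (∀ (j : Fin n) (f h : Fin k → Fin N), LinearIndependent (algebraicClosure ℚ ℂ)
          (fun s : {s // h s ≠ f s} => w j s.1 (h s.1) - w j s.1 (f s.1))) →
        ∀ (t : Fin g → ℂ) (ζ : Fin n → ℂ),
        ((Finset.univ.filter fun f : Fin n → Fin k → Fin N =>
          ¬ Decides t L (fun j => ζ j + ∑ s, w j s (f j s))).card : ℝ) ≤
          C * (N : ℝ) ^ ((n * k : ℝ) - δ * k) := by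
  refine ⟨?_, fun n g L => ?_⟩
  · intro n P P' y v v' δ hv hv'
    unfold test
    refine ⟨fun h => ?_, fun h hE => ?_⟩
    · by_cases hE : P = P'
      · rw [hE]
      · rw [if_neg hE] at h
        split_ifs at h
        simp at h
    · by_cases hE' : P = P'
      · rw [if_pos hE'] at h
        simp at h
      · rw [if_neg hE'] at h
        split_ifs at h with h1
        have h2 := norm_sub_le (v - MvPolynomial.eval y P) (v' - MvPolynomial.eval y P')
        have h3 : v - MvPolynomial.eval y P - (v' - MvPolynomial.eval y P') = v - v' := by
          rw [hE]; ring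
        rw [h3] at h2
        linarith
  · have hac : IsAlgClosure ℚ (algebraicClosure ℚ ℂ) := algebraicClosure.isAlgClosure ℚ ℂ
    have hacl : IsAlgClosed (algebraicClosure ℚ ℂ) := IsAlgClosure.isAlgClosed ℚ
    obtain ⟨k₀, C, δ, hδ, -, h⟩ := Pool.Agent.K7.H62.PA.box_slp (L + L + 1) n g
    refine ⟨k₀, C, δ, hδ, fun k hk N w hli t ζ => ?_⟩
    refine h k hk (algebraicClosure ℚ ℂ) ℂ Pool.Agent.R351.infTrd_complex t ζ N w
      (fun j => Pool.Agent.K7.H62.PA.DI_of_li (w j) (hli j)) _ ?_
    intro f hf hgood
    exact (Finset.mem_filter.1 hf).2 (decides_of hgood)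

end Pool.Agent.Results.MP_bbe012_lc.ShortExpressions
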